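import Pool.Agent.Q321.RB.DirFin

/-!
# The red-blue cut problem in directed graphs is NP-complete

The reduction is from CLIQUE. The source and the sink are replaced by large complete digraphs `S`
and `T` with red arcs; there are red arcs from every vertex to every vertex of `S` and from every
vertex of `T` to every vertex outside `S`. So a nonempty proper set `X` that is left by few red
arcs contains `S` and misses `T`. For an edge `e = uv` of the given graph there are red arcs from
the source to `e` and from `e` to `u` and `v`; they contribute a red arc to the cut, unless `e`,
`u`, `v` can all be in `X`. Every vertex has a blue arc to the sink.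
-/

namespace Pool.Agent.Results.MP_ac2b6c_lc.DirectedRedBlueNPC

open Pool.Agent.NPC Pool.Agent.Q321.RB

/-- **The red-blue cut problem in directed graphs is NP-complete** (under polynomial-time many-one
reductions), already for digraphs without loops and parallel arcs. -/
theorem result : InNPP DirRedBlueCut ∧ NPHardP DirRedBlueCut :=
  ⟨inNPP_dirRedBlueCut, hardI_dirRedBlueCut.toNPHardP⟩

end Pool.Agent.Results.MP_ac2b6c_lc.DirectedRedBlueNPC
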